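import Pool.Agent.H23R2.Ch.Cycle2
import Pool.Agent.H23R2.Lin
import Mathlib.GroupTheory.ResiduallyFinite

/-!
# Pairings of idempotent matrices over group algebras with cycles: all conjugacy classes
-/

set_option autoImplicit false
set_option linter.unusedSectionVars false
set_option linter.style.haveILetI false

namespace Pool.Agent.H290R4.ChernZ

open Pool.Agent.H23R2 Pool.Agent.H23R2.Ch

section restrict

variable {k : Type*} [CommRing k] {G : Type*} [Group G] {M : Type*} [AddCommGroup M] [Module k M]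
  {d : Type*} [Fintype d] [DecidableEq d] {Ω : Type*} [Ring Ω] [Algebra k Ω]
  {𝒜 : ℕ → Submodule k Ω} [GradedAlgebra 𝒜] {δ : Ω →ₗ[k] Ω} {T : Ω →ₗ[k] M}
  {ρ : MonoidAlgebra k G →ₐ[k] Ω}

/-- the subgroup generated by the supports of the entries of `e` -/
def supp (e : Matrix d d (MonoidAlgebra k G)) : Subgroup G :=
  Subgroup.closure {g | ∃ i j, (e i j).coeff g ≠ 0}

lemma supp_fg (e : Matrix d d (MonoidAlgebra k G)) : (supp e).FG := by
  classical
  refine ⟨Finset.univ.biUnion fun i => Finset.univ.biUnion fun j => (e i j).coeff.support, ?_⟩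
  unfold supp
  congr 1
  ext g
  simp [Finsupp.mem_support_iff]

lemma restrict_eq (H : Subgroup G) (x : MonoidAlgebra k G)
    (hx : ∀ g, x.coeff g ≠ 0 → g ∈ H) :
    MonoidAlgebra.mapDomainAlgHom k k H.subtype
      (MonoidAlgebra.comapDomain H.subtype H.subtype_injective x) = x := by
  refine MonoidAlgebra.mapDomain_comapDomain ?_ _
  intro g hg
  exact ⟨⟨g, hx g (by simpa using hg)⟩, rfl⟩

/-- The vanishing theorem, with all hypotheses only on the subgroup generated by the supports. -/
theorem vanish (e : Matrix d d (MonoidAlgebra k G)) (he : e * e = e)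
    (h1 : ∃ p : ℕ, p.Prime ∧ Sep M p ∧ ∀ g ∈ supp e, g ^ p = 1 → g = 1)
    {n : ℕ} (hn : 1 ≤ n) (h : IsCycle (2 * n) 𝒜 δ T) (hρ : ∀ a, ρ a ∈ 𝒜 0)
    (hloc : ∀ g ∈ supp e, g ≠ 1 → (∀ p : ℕ, p.Prime → Sep M p → ∃ j, 1 ≤ j ∧
        ∃ c ∈ supp e, c * g * c⁻¹ = g ^ p ^ j) →
      ∀ (a : G) (l : List G), l.length = 2 * n → a * l.prod = g →
        T (ρ (MonoidAlgebra.single a 1) *
          (l.map fun b => δ (ρ (MonoidAlgebra.single b 1))).prod) = 0) :
    (Nat.centralBinom n) • T ((e.map ρ) * ((e.map ρ).map δ) ^ (2 * n)).trace = 0 := by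
  classical
  set H : Subgroup G := supp e with hHdef
  let j : MonoidAlgebra k H →ₐ[k] MonoidAlgebra k G :=
    MonoidAlgebra.mapDomainAlgHom k k H.subtype
  have hj : Function.Injective j := MonoidAlgebra.mapDomain_injective H.subtype_injective
  let res : Matrix d d (MonoidAlgebra k H) :=
    Matrix.of fun a b => MonoidAlgebra.comapDomain H.subtype H.subtype_injective (e a b)
  have hres : res.map j = e := by
    ext1 a b
    exact restrict_eq H _ (fun g hg => Subgroup.subset_closure ⟨a, b, hg⟩)
  have hidem : res * res = res := by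
    have h4 : (res * res).map j = res.map j := by
      rw [Matrix.map_mul, hres, he]
    ext1 a b
    apply hj
    exact congrFun (congrFun h4 a) b
  have h3 : ∀ x : H, (ρ.comp j) (MonoidAlgebra.single x 1) =
      ρ (MonoidAlgebra.single x.1 1) := by
    intro x
    simp [j]
  have key := cycle_vanish (d := d) (G := H) (ρ := ρ.comp j) (M := M)
    (by
      obtain ⟨p, hp, hs, hg⟩ := h1
      refine ⟨p, hp, hs, fun g hgp => ?_⟩
      apply Subtype.ext
      exact hg g.1 g.2 (by simpa using congrArg Subtype.val hgp))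
    hn h (fun a => hρ _)
    (by
      intro g hg hconj a l hl hal
      have h5 := hloc g.1 g.2 (fun hc => hg (Subtype.ext hc))
        (by
          intro p hp hs
          obtain ⟨i, hi, hc⟩ := hconj p hp hs
          obtain ⟨c, hc⟩ := isConj_iff.1 hc
          exact ⟨i, hi, c.1, c.2, by simpa using congrArg Subtype.val hc⟩)
        a.1 (l.map Subtype.val) (by simpa using hl) (by
          rw [← hal]
          push_cast
          rfl)
      rw [h3]
      rw [List.map_map] at h5
      have h6 : (l.map fun b => δ ((ρ.comp j) (MonoidAlgebra.single b 1))) =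
          l.map ((fun h => δ (ρ (MonoidAlgebra.single h 1))) ∘ Subtype.val) := by
        refine List.map_congr_left fun b _ => ?_
        rw [h3]
        rfl
      rw [h6]
      exact h5)
    res hidem
  have h2 : res.map (ρ.comp j) = e.map ρ := by
    conv_rhs => rw [← hres]
    ext1 a b
    simp
  rw [h2] at key
  exact key

end restrict

section resfin

/-- in a residually finite group no `g ≠ 1` is conjugate to some `g ^ p ^ j` for every prime `p` -/
lemma exists_prime {H : Type*} [Group H] [Group.ResiduallyFinite H] (g : H) (hg : g ≠ 1) :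
    ∃ p : ℕ, p.Prime ∧ ∀ j, 1 ≤ j → ∀ c : H, c * g * c⁻¹ ≠ g ^ p ^ j := by
  obtain ⟨N, hN⟩ := Group.exists_finiteIndexNormalSubgroup_notMem g hg
  haveI : N.toSubgroup.Normal := inferInstance
  haveI : N.toSubgroup.FiniteIndex := inferInstance
  haveI : Finite (H ⧸ N.toSubgroup) := inferInstance
  set x : H ⧸ N.toSubgroup := QuotientGroup.mk g with hx
  have hx1 : x ≠ 1 := by
    intro hc
    apply hN
    rw [hx, QuotientGroup.eq_one_iff] at hc
    exact hc
  have ho : orderOf x ≠ 1 := by
    rwa [Ne, orderOf_eq_one_iff]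
  obtain ⟨p, hp, hpd⟩ := Nat.exists_prime_and_dvd ho
  refine ⟨p, hp, fun j hj c hc => ?_⟩
  have h1 : (QuotientGroup.mk c : H ⧸ N.toSubgroup) * x * (QuotientGroup.mk c)⁻¹ = x ^ p ^ j := by
    rw [hx, ← QuotientGroup.mk_inv, ← QuotientGroup.mk_mul, ← QuotientGroup.mk_mul, hc,
      QuotientGroup.mk_pow]
  have h2 : orderOf (x ^ p ^ j) = orderOf x := by
    rw [← h1]
    exact MulEquiv.orderOf_eq (MulAut.conj (QuotientGroup.mk c : H ⧸ N.toSubgroup)) x
  have hpos : 0 < orderOf x := orderOf_pos x
  have h3 : orderOf (x ^ p ^ j) = orderOf x / Nat.gcd (orderOf x) (p ^ j) := orderOf_pow x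
  have h4 : 2 ≤ Nat.gcd (orderOf x) (p ^ j) := by
    have h5 : p ∣ Nat.gcd (orderOf x) (p ^ j) :=
      Nat.dvd_gcd hpd (dvd_pow_self p (by omega))
    exact hp.two_le.trans (Nat.le_of_dvd (Nat.gcd_pos_of_pos_left _ hpos) h5)
  have h6 : orderOf x / Nat.gcd (orderOf x) (p ^ j) < orderOf x := Nat.div_lt_self hpos h4
  omega

end resfin

section linear

variable {K : Type*} [Field K] {N : ℕ} {H : Type*} [Group H]

/-- the entries of a finitely generated linear group lie in a finitely generated ring -/
lemma entries_mem (φ : H →* GL (Fin N) K) (T : Set H) (hT : Subgroup.closure T = ⊤)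
    (R : Subalgebra ℤ K)
    (h1 : ∀ t ∈ T, ∀ i j, (φ t).val i j ∈ R) (h2 : ∀ t ∈ T, ∀ i j, (φ t⁻¹).val i j ∈ R)
    (h : H) : ∀ i j, (φ h).val i j ∈ R := by
  have hmem : h ∈ Subgroup.closure T := by rw [hT]; trivial
  have hmul : ∀ x y : H, (∀ i j, (φ x).val i j ∈ R) → (∀ i j, (φ y).val i j ∈ R) →
      ∀ i j, (φ (x * y)).val i j ∈ R := by
    intro x y hx hy i j
    rw [map_mul, Units.val_mul, Matrix.mul_apply]
    exact R.sum_mem (fun k _ => R.mul_mem (hx i k) (hy k j))
  induction hmem using Subgroup.closure_induction_left with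
  | one =>
    intro i j
    rw [map_one, Units.val_one, Matrix.one_apply]
    split_ifs
    · exact R.one_mem
    · exact R.zero_mem
  | mul_left x hx y _ ih => exact hmul x y (h1 x hx) ih
  | inv_mul_cancel x hx y _ ih => exact hmul x⁻¹ y (h2 x hx) ih

/-- **Malcev**: finitely generated linear groups are residually finite. -/
theorem malcev [Group.FG H] (φ : H →* GL (Fin N) K) (hφ : Function.Injective φ) :
    Group.ResiduallyFinite H := by
  classical
  obtain ⟨T, hT⟩ := Group.fg_def.1 (inferInstance : Group.FG H)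
  let s : Finset K := T.biUnion fun t => Finset.univ.biUnion fun i : Fin N =>
    Finset.univ.biUnion fun j : Fin N => {(φ t).val i j, (φ t⁻¹).val i j}
  let R : Subalgebra ℤ K := Algebra.adjoin ℤ (s : Set K)
  have hR : Algebra.FiniteType ℤ R := by
    rw [← Subalgebra.fg_iff_finiteType]
    exact ⟨s, rfl⟩
  have hJ : IsJacobsonRing R := isJacobsonRing_of_finiteType (A := ℤ) (B := R)
  have hN : IsNoetherianRing R := Algebra.FiniteType.isNoetherianRing ℤ R
  have hent : ∀ h : H, ∀ i j, (φ h).val i j ∈ R := by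
    apply entries_mem φ (T : Set H) hT R
    · intro t ht i j
      apply Algebra.subset_adjoin
      simp only [s, Finset.coe_biUnion, Set.mem_iUnion]
      exact ⟨t, ht, i, by simp, j, by simp, by simp⟩
    · intro t ht i j
      apply Algebra.subset_adjoin
      simp only [s, Finset.coe_biUnion, Set.mem_iUnion]
      exact ⟨t, ht, i, by simp, j, by simp, by simp⟩
  let ψ0 : H →* Matrix (Fin N) (Fin N) R :=
    { toFun := fun h => Matrix.of fun i j => ⟨(φ h).val i j, hent h i j⟩
      map_one' := by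
        ext i j
        simp only [Matrix.of_apply, map_one, Units.val_one, Matrix.one_apply]
        split_ifs <;> rfl
      map_mul' := by
        intro x y
        ext i j
        simp only [Matrix.of_apply, map_mul, Units.val_mul, Matrix.mul_apply]
        rw [AddSubmonoidClass.coe_finsetSum]
        rfl }
  rw [Group.residuallyFinite_iff_exists_finiteIndex]
  intro g hg
  have hne : ψ0 g ≠ 1 := by
    intro hc
    apply hg
    apply hφ
    rw [map_one]
    apply Units.ext
    ext i j
    have h1 := congrArg Subtype.val (congrFun (congrFun hc i) j)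
    have h2 : (((1 : Matrix (Fin N) (Fin N) R) i j : R) : K) =
        (1 : Matrix (Fin N) (Fin N) K) i j := by
      rw [Matrix.one_apply, Matrix.one_apply]
      split_ifs <;> rfl
    rw [h2] at h1
    simpa [ψ0] using h1
  obtain ⟨a, b, hab⟩ : ∃ a b, (ψ0 g - 1) a b ≠ 0 := by
    by_contra hcon
    push Not at hcon
    apply hne
    rw [← sub_eq_zero]
    ext1 a b
    exact hcon a b
  have hjac : (⊥ : Ideal R).jacobson = ⊥ :=
    hJ.out (Ideal.IsPrime.isRadical Ideal.isPrime_bot)
  have hnot : (ψ0 g - 1) a b ∉ (⊥ : Ideal R).jacobson := by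
    rw [hjac, Ideal.mem_bot]
    exact hab
  rw [Ideal.jacobson, Ideal.mem_sInf] at hnot
  push Not at hnot
  obtain ⟨m, hm, hmem⟩ := hnot
  obtain ⟨_, hm⟩ := hm
  haveI := hm
  obtain ⟨q, hq, hqm, hfin⟩ := residue_finite R m
  haveI := hfin
  let θ : H →* Matrix (Fin N) (Fin N) (R ⧸ m) :=
    ((Ideal.Quotient.mk m).mapMatrix : Matrix (Fin N) (Fin N) R →+* _).toMonoidHom.comp ψ0
  let θ' : H →* (Matrix (Fin N) (Fin N) (R ⧸ m))ˣ := θ.toHomUnits
  haveI : Finite (Matrix (Fin N) (Fin N) (R ⧸ m)) := by
    unfold Matrix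
    infer_instance
  haveI : Finite (Matrix (Fin N) (Fin N) (R ⧸ m))ˣ := inferInstance
  refine ⟨θ'.ker, Subgroup.finiteIndex_ker θ', ?_⟩
  intro hc
  rw [MonoidHom.mem_ker] at hc
  have h1 : θ g = 1 := congrArg Units.val hc
  have h2 := (mapMatrix_eq_one_iff m (ψ0 g)).1 h1 a b
  exact hmem h2

end linear

end Pool.Agent.H290R4.ChernZ
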